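import Pool.Agent.Work.MP_46fa68_86.EndG4

/-!
# MP_46fa68_co: at most `t + 2` popular cells, a weaker condition on `p0` (step y2)

`T` = `t + 3` popular cells (rows `U`, permutation `g`).  `P_e` = the members missing exactly the pair `e` of `U`.
For disjoint pairs `e`, `f` the families `P_e`, `P_f` are, after exchanging the rows and columns of `e` with those of
`f` and removing the `t + 1` common cells, cross-`1`-intersecting in `S_t`, so `|P_e| |P_f| ≤ (t-1)!^2`.
-/

set_option autoImplicit false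

open Finset Equiv

namespace Pool.EG

variable {t : ℕ}

/-- cross-intersecting families of permutations of `N` points -/
def Cross1 (N : ℕ) : Prop :=
  ∀ P Q : Finset (Perm (Fin N)), (∀ σ ∈ P, ∀ τ ∈ Q, ∃ i, σ i = τ i) →
    P.card * Q.card ≤ ((N - 1).factorial) ^ 2

/-- the members missing exactly `e` -/
def Pe {n : ℕ} (A : Finset (Perm (Fin n))) (g : Perm (Fin n)) (U e : Finset (Fin n)) :
    Finset (Perm (Fin n)) :=
  A.filter fun σ => U.filter (fun i => σ i ≠ g i) = e

theorem mem_Pe {n : ℕ} {A : Finset (Perm (Fin n))} {g : Perm (Fin n)} {U e : Finset (Fin n)}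
    {σ : Perm (Fin n)} : σ ∈ Pe A g U e ↔ σ ∈ A ∧ U.filter (fun i => σ i ≠ g i) = e := by
  unfold Pe
  rw [mem_filter]

theorem hit_of_Pe {n : ℕ} {A : Finset (Perm (Fin n))} {g : Perm (Fin n)} {U e : Finset (Fin n)}
    {σ : Perm (Fin n)} (h : σ ∈ Pe A g U e) {i : Fin n} (hi : i ∈ U) (hie : i ∉ e) : σ i = g i := by
  by_contra hcon
  apply hie
  rw [← (mem_Pe.1 h).2]
  exact mem_filter.2 ⟨hi, hcon⟩

theorem miss_of_Pe {n : ℕ} {A : Finset (Perm (Fin n))} {g : Perm (Fin n)} {U e : Finset (Fin n)}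
    {σ : Perm (Fin n)} (h : σ ∈ Pe A g U e) {i : Fin n} (hie : i ∈ e) : σ i ≠ g i := by
  rw [← (mem_Pe.1 h).2] at hie
  exact (mem_filter.1 hie).2

/-- an involution exchanging two disjoint sets of the same size -/
theorem exists_exch {n : ℕ} (e f : Finset (Fin n)) (hd : Disjoint e f) (hc : e.card = f.card) :
    ∃ α : Perm (Fin n), (∀ i ∈ e, α i ∈ f) ∧ (∀ i ∈ f, α i ∈ e) ∧
      (∀ i, i ∉ e → i ∉ f → α i = i) := by
  classical
  induction e using Finset.induction_on generalizing f with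
  | empty =>
    rw [card_empty] at hc
    have hf : f = ∅ := card_eq_zero.1 hc.symm
    subst hf
    exact ⟨1, fun i hi => absurd hi (notMem_empty i), fun i hi => absurd hi (notMem_empty i),
      fun i _ _ => rfl⟩
  | insert a e ha ih =>
    rw [card_insert_of_notMem ha] at hc
    obtain ⟨b, hb⟩ : f.Nonempty := card_pos.1 (by omega)
    have hd1 : Disjoint e (f.erase b) :=
      disjoint_of_subset_left (subset_insert _ _) (disjoint_of_subset_right (erase_subset _ _) hd)
    obtain ⟨α, h1, h2, h3⟩ := ih (f.erase b) hd1 (by rw [card_erase_of_mem hb]; omega)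
    have haf : a ∉ f := fun h => (disjoint_left.1 hd) (mem_insert_self _ _) h
    have hbe : b ∉ insert a e := fun h => (disjoint_left.1 hd) h hb
    have hae' : a ∉ f.erase b := fun h => haf (mem_of_mem_erase h)
    have hab : a ≠ b := fun h => haf (by rw [h]; exact hb)
    have ea : α a = a := h3 a ha hae'
    have eb : α b = b := h3 b (fun h => hbe (mem_insert_of_mem h)) (notMem_erase _ _)
    refine ⟨swap a b * α, ?_, ?_, ?_⟩
    · intro i hi
      rw [Perm.mul_apply]
      rcases mem_insert.1 hi with rfl | hi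
      · rw [ea, swap_apply_left]
        exact hb
      · have h4 := h1 i hi
        obtain ⟨h5, h6⟩ := mem_erase.1 h4
        rw [swap_apply_of_ne_of_ne (fun h => haf (by rw [← h]; exact h6)) h5]
        exact h6
    · intro i hi
      rw [Perm.mul_apply]
      by_cases hib : i = b
      · rw [hib, eb, swap_apply_right]
        exact mem_insert_self _ _
      · have h4 := h2 i (mem_erase.2 ⟨hib, hi⟩)
        rw [swap_apply_of_ne_of_ne (fun h => ha (by rw [← h]; exact h4))
          (fun h => hbe (by rw [← h]; exact mem_insert_of_mem h4))]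
        exact mem_insert_of_mem h4
    · intro i hi hif
      have hia : i ≠ a := fun h => hi (by rw [h]; exact mem_insert_self _ _)
      have hib : i ≠ b := fun h => hif (by rw [h]; exact hb)
      rw [Perm.mul_apply, h3 i (fun h => hi (mem_insert_of_mem h))
        (fun h => hif (mem_of_mem_erase h)), swap_apply_of_ne_of_ne hia hib]

/-- the product bound for disjoint pairs -/
theorem Pe_mul {A : Finset (Perm (Fin (2 * t + 1)))} (hA : TInt t A) (hX : Cross1 t)
    {g : Perm (Fin (2 * t + 1))} {U e f : Finset (Fin (2 * t + 1))} (hU : U.card = t + 3)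
    (he : e ⊆ U) (hf : f ⊆ U) (hec : e.card = 2) (hfc : f.card = 2) (hd : Disjoint e f) :
    (Pe A g U e).card * (Pe A g U f).card ≤ ((t - 1).factorial) ^ 2 := by
  classical
  obtain ⟨α, ha1, ha2, ha3⟩ := exists_exch e f hd (by rw [hec, hfc])
  have hUe : (U \ e).card = t + 1 := by
    rw [card_sdiff_of_subset he]
    omega
  obtain ⟨φ, r, hφ, hr, hrT, hrs, h1, h2, h3⟩ := exists_red g (U \ e) hUe
  have hn : 2 * t + 1 - (t + 1) = t := by omega
  -- the transported families
  have hsub1 : ∀ σ ∈ Pe A g U e, ∃ ρ, φ ρ = σ := fun σ hσ =>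
    h3 σ fun i hi => hit_of_Pe hσ (mem_sdiff.1 hi).1 (mem_sdiff.1 hi).2
  have hsub2 : ∀ τ ∈ Pe A g U f, ∃ ρ, φ ρ = g * (α * (g⁻¹ * τ) * α⁻¹) := by
    intro τ hτ
    apply h3
    intro i hi
    obtain ⟨hiU, hie⟩ := mem_sdiff.1 hi
    rw [Perm.mul_apply, Perm.mul_apply, Perm.mul_apply, Perm.mul_apply]
    congr 1
    -- the preimage of `i` under `α`
    have key : τ (α⁻¹ i) = g (α⁻¹ i) := by
      apply hit_of_Pe hτ
      · by_cases hif : i ∈ f
        · by_contra hcon
          have h4 : α⁻¹ i ∉ e := fun h => hcon (he h)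
          have h5 : α⁻¹ i ∉ f := fun h => hcon (hf h)
          have h6 := ha3 _ h4 h5
          rw [ap_inv] at h6
          exact hcon (by rw [← h6]; exact hiU)
        · have h6 := ha3 i hie hif
          have h7 : α⁻¹ i = i := by rw [Perm.inv_eq_iff_eq, h6]
          rw [h7]
          exact hiU
      · intro h
        have h4 := ha2 _ h
        rw [ap_inv] at h4
        exact hie h4
    rw [key]
    rw [show g⁻¹ (g (α⁻¹ i)) = α⁻¹ i from g.symm_apply_apply _, ap_inv]
  choose! c1 hc1 using hsub1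
  choose! c2 hc2 using hsub2
  have hinj1 : Set.InjOn c1 (Pe A g U e : Set (Perm (Fin (2 * t + 1)))) := by
    intro σ hσ τ hτ h
    rw [← hc1 σ hσ, ← hc1 τ hτ, h]
  have hinj2 : Set.InjOn c2 (Pe A g U f : Set (Perm (Fin (2 * t + 1)))) := by
    intro σ hσ τ hτ h
    have h4 : g * (α * (g⁻¹ * σ) * α⁻¹) = g * (α * (g⁻¹ * τ) * α⁻¹) := by
      rw [← hc2 σ hσ, ← hc2 τ hτ, h]
    have h5 := mul_left_cancel h4
    have h6 := mul_right_cancel h5
    exact mul_left_cancel (mul_left_cancel h6)
  -- cross intersection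
  have hcross : ∀ ρ ∈ (Pe A g U e).image c1, ∀ ρ' ∈ (Pe A g U f).image c2, ∃ i, ρ i = ρ' i := by
    intro ρ hρ ρ' hρ'
    obtain ⟨σ, hσ, rfl⟩ := mem_image.1 hρ
    obtain ⟨τ, hτ, rfl⟩ := mem_image.1 hρ'
    have h4 := hA σ (mem_Pe.1 hσ).1 τ (mem_Pe.1 hτ).1
    have h5 : (U \ (e ∪ f)).card = t - 1 := by
      rw [card_sdiff_of_subset (union_subset he hf), card_union_of_disjoint hd]
      omega
    have ht1 : 1 ≤ t := by
      have : (e ∪ f).card ≤ U.card := card_le_card (union_subset he hf)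
      rw [card_union_of_disjoint hd] at this
      omega
    obtain ⟨i, hi1, hi2⟩ : ∃ i, σ i = τ i ∧ i ∉ U := by
      by_contra hcon
      push Not at hcon
      have h6 : (univ.filter fun i => σ i = τ i) ⊆ U \ (e ∪ f) := by
        intro i hi
        have hi' := (mem_filter.1 hi).2
        have hiU := hcon i hi'
        refine mem_sdiff.2 ⟨hiU, fun h => ?_⟩
        rcases mem_union.1 h with h | h
        · have h7 := miss_of_Pe hσ h
          have h8 := hit_of_Pe hτ hiU (disjoint_left.1 hd h)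
          exact h7 (by rw [hi', h8])
        · have h7 := miss_of_Pe hτ h
          have h8 := hit_of_Pe hσ hiU (disjoint_right.1 hd h)
          exact h7 (by rw [← hi', h8])
      have h7 := card_le_card h6
      unfold ag at h4
      rw [h5] at h7
      omega
    obtain ⟨j, hj⟩ := hrs i fun h => hi2 (mem_sdiff.1 h).1
    refine ⟨j, ?_⟩
    have e1 := h2 (c1 σ) j
    rw [hc1 σ hσ, hj] at e1
    have e2 := h2 (c2 τ) j
    rw [hc2 τ hτ, hj] at e2
    have hie : i ∉ e := fun h => hi2 (he h)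
    have hif : i ∉ f := fun h => hi2 (hf h)
    have hai : α⁻¹ i = i := by rw [Perm.inv_eq_iff_eq, ha3 i hie hif]
    -- the value
    have hv1 : g⁻¹ (τ i) ∉ f := by
      intro h
      have h7 := hit_of_Pe hσ (hf h) (disjoint_right.1 hd h)
      rw [ap_inv, ← hi1] at h7
      have h8 := σ.injective h7
      rw [← hi1, h8] at h
      exact hif h
    have hv2 : g⁻¹ (τ i) ∉ e := by
      intro h
      have h7 := hit_of_Pe hτ (he h) (disjoint_left.1 hd h)
      rw [ap_inv] at h7
      have h8 := τ.injective h7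
      exact hie (by rw [← h8]; exact h)
    rw [Perm.mul_apply, Perm.mul_apply, Perm.mul_apply, Perm.mul_apply, hai, ha3 _ hv2 hv1, ap_inv,
      ← hi1, e1] at e2
    exact hr (g.injective e2)
  have h9 : ∀ P Q : Finset (Perm (Fin (2 * t + 1 - (t + 1)))),
      (∀ σ ∈ P, ∀ τ ∈ Q, ∃ i, σ i = τ i) → P.card * Q.card ≤ ((t - 1).factorial) ^ 2 := by
    rw [hn]
    exact hX
  have h10 := h9 _ _ hcross
  rwa [card_image_of_injOn hinj1, card_image_of_injOn hinj2] at h10

section count

variable {n : ℕ}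

/-- the number of members missing a pair of `S` -/
theorem sum_Pe (A : Finset (Perm (Fin n))) (g : Perm (Fin n)) (U : Finset (Fin n))
    (S : Finset (Finset (Fin n))) :
    ∑ e ∈ S, (Pe A g U e).card = (A.filter fun σ => U.filter (fun i => σ i ≠ g i) ∈ S).card := by
  classical
  rw [card_eq_sum_card_fiberwise (s := A.filter fun σ => U.filter (fun i => σ i ≠ g i) ∈ S)
    (f := fun σ : Perm (Fin n) => U.filter (fun i => σ i ≠ g i)) (t := S)
    (fun σ hσ => (mem_filter.1 hσ).2)]
  refine sum_congr rfl fun e he => ?_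
  congr 1
  ext σ
  rw [mem_Pe, mem_filter, mem_filter]
  constructor
  · rintro ⟨h1, h2⟩
    exact ⟨⟨h1, by rw [h2]; exact he⟩, h2⟩
  · rintro ⟨⟨h1, _⟩, h2⟩
    exact ⟨h1, h2⟩

theorem choose2 (k : ℕ) : (((k + 1).choose 2 : ℕ) : ℝ) = (k + 1) * k / 2 := by
  rw [Nat.cast_choose_two]
  push_cast
  ring

end count

/-- few members miss exactly two popular cells -/
theorem N2_le (ht : 1 ≤ t) {A : Finset (Perm (Fin (2 * t + 1)))} (hA : TInt t A) (hX : Cross1 t)
    {p0 : ℝ} (hF : ((t + 1).factorial : ℝ) ≤ A.card)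
    {g : Perm (Fin (2 * t + 1))} {U : Finset (Fin (2 * t + 1))} (hU : U.card = t + 3)
    (hpop : ∀ i ∈ U, p0 * A.card ≤ ((thr A i (g i)).card : ℝ)) {ν : ℝ}
    (h1 : ((t : ℝ) + 3) * (t + 2) ≤ 2 * (t * (t + 1)) * ν)
    (h2 : 2 * (1 - p0) * (t * (t + 1)) + (2 * t + 3) ≤ ν * (t * (t + 1))) :
    (∑ e ∈ U.powersetCard 2, ((Pe A g U e).card : ℝ)) ≤ ν * A.card := by
  classical
  have htR : (1 : ℝ) ≤ t := by exact_mod_cast ht
  obtain ⟨F, hFd⟩ : ∃ F : ℝ, F = ((t - 1).factorial : ℝ) := ⟨_, rfl⟩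
  have hF0 : 0 < F := by rw [hFd]; exact_mod_cast Nat.factorial_pos _
  have hFA : (t : ℝ) * (t + 1) * F ≤ A.card := by
    refine le_trans (le_of_eq ?_) hF
    rw [hFd, Nat.factorial_succ, ← Nat.mul_factorial_pred (by omega : t ≠ 0)]
    push_cast
    ring
  set x : Finset (Fin (2 * t + 1)) → ℝ := fun e => ((Pe A g U e).card : ℝ) with hx
  have hx0 : ∀ e, 0 ≤ x e := fun e => Nat.cast_nonneg _
  set D := U.powersetCard 2 with hD
  have hDc : (D.card : ℝ) = (t + 3) * (t + 2) / 2 := by
    rw [hD, card_powersetCard, hU, choose2]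
    push_cast
    ring
  have hprod : ∀ e ∈ D, ∀ f ∈ D, Disjoint e f → x e * x f ≤ F ^ 2 := by
    intro e he f hf hd
    obtain ⟨he1, he2⟩ := mem_powersetCard.1 he
    obtain ⟨hf1, hf2⟩ := mem_powersetCard.1 hf
    have h := Pe_mul hA hX (g := g) hU he1 hf1 he2 hf2 hd
    rw [hFd]
    simp only [hx]
    exact_mod_cast h
  have hne : D.Nonempty := by
    rw [hD]
    exact powersetCard_nonempty.2 (by omega)
  obtain ⟨e0, he0, hmax⟩ := exists_max_image D x hne
  have hAν : ∀ c : ℝ, c ≤ ν * (t * (t + 1)) → c * F ≤ ν * A.card := by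
    intro c hc
    have hν : 0 ≤ ν := by
      have h3 : 0 < 2 * ((t : ℝ) * (t + 1)) := by positivity
      have h4 : 0 ≤ 2 * ((t : ℝ) * (t + 1)) * ν := le_trans (by positivity) h1
      exact nonneg_of_mul_nonneg_right h4 h3
    calc c * F ≤ ν * (t * (t + 1)) * F := mul_le_mul_of_nonneg_right hc hF0.le
      _ = ν * (t * (t + 1) * F) := by ring
      _ ≤ ν * A.card := mul_le_mul_of_nonneg_left hFA hν
  rcases le_or_gt (x e0) F with hle | hgt
  · calc ∑ e ∈ D, x e ≤ ∑ e ∈ D, F := sum_le_sum fun e he => (hmax e he).trans hle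
      _ = (t + 3) * (t + 2) / 2 * F := by rw [sum_const, nsmul_eq_mul, hDc]
      _ ≤ _ := hAν _ (by linarith)
  · obtain ⟨a, ha⟩ : ∃ a, a = x e0 := ⟨_, rfl⟩
    rw [← ha] at hgt hmax
    have ha0 : 0 < a := hF0.trans hgt
    obtain ⟨he1, he2⟩ := mem_powersetCard.1 he0
    rw [← sum_filter_add_sum_filter_not D (fun e => Disjoint e0 e)]
    have hc1 : ((D.filter fun e => Disjoint e0 e).card : ℝ) = (t + 1) * t / 2 := by
      have h3 : D.filter (fun e => Disjoint e0 e) = (U \ e0).powersetCard 2 := by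
        ext e
        rw [mem_filter, hD, mem_powersetCard, mem_powersetCard]
        constructor
        · rintro ⟨⟨h4, h5⟩, h6⟩
          exact ⟨fun i hi => mem_sdiff.2 ⟨h4 hi, disjoint_right.1 h6 hi⟩, h5⟩
        · rintro ⟨h4, h5⟩
          exact ⟨⟨fun i hi => (mem_sdiff.1 (h4 hi)).1, h5⟩,
            disjoint_right.2 fun i hi => (mem_sdiff.1 (h4 hi)).2⟩
      rw [h3, card_powersetCard, card_sdiff_of_subset he1, hU, he2, show t + 3 - 2 = t + 1 by omega,
        choose2]
    have hc2 : ((D.filter fun e => ¬ Disjoint e0 e).card : ℝ) = 2 * t + 3 := by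
      have h3 : (D.filter fun e => Disjoint e0 e).card + (D.filter fun e => ¬ Disjoint e0 e).card =
          D.card := card_filter_add_card_filter_not _
      have h4 : ((D.filter fun e => Disjoint e0 e).card : ℝ) +
          ((D.filter fun e => ¬ Disjoint e0 e).card : ℝ) = D.card := by exact_mod_cast h3
      rw [hc1, hDc] at h4
      linarith
    have hR1 : a * ∑ e ∈ D.filter (fun e => Disjoint e0 e), x e ≤ (t + 1) * t / 2 * F ^ 2 := by
      rw [mul_sum]
      calc ∑ e ∈ D.filter (fun e => Disjoint e0 e), a * x e ≤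
          ∑ e ∈ D.filter (fun e => Disjoint e0 e), F ^ 2 := sum_le_sum fun e he => by
            rw [ha]
            exact hprod e0 he0 e (mem_filter.1 he).1 (mem_filter.1 he).2
        _ = _ := by rw [sum_const, nsmul_eq_mul, hc1]
    have hR2 : ∑ e ∈ D.filter (fun e => ¬ Disjoint e0 e), x e ≤ (2 * t + 3) * a := by
      calc ∑ e ∈ D.filter (fun e => ¬ Disjoint e0 e), x e ≤
          ∑ e ∈ D.filter (fun e => ¬ Disjoint e0 e), a := sum_le_sum fun e he =>
            hmax e (mem_filter.1 he).1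
        _ = _ := by rw [sum_const, nsmul_eq_mul, hc2]
    have hR3 : ∑ e ∈ D.filter (fun e => ¬ Disjoint e0 e), x e ≤ 2 * (1 - p0) * A.card := by
      obtain ⟨c, d, hcd, hcd'⟩ := card_eq_two.1 he2
      have h3 := sum_Pe A g U (D.filter fun e => ¬ Disjoint e0 e)
      have h4 : (A.filter fun σ => U.filter (fun i => σ i ≠ g i) ∈
          D.filter fun e => ¬ Disjoint e0 e).card ≤
          (A.filter fun σ => σ c ≠ g c).card + (A.filter fun σ => σ d ≠ g d).card := by
        refine (card_le_card ?_).trans (card_union_le _ _)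
        intro σ hσ
        obtain ⟨h5, h6⟩ := mem_filter.1 hσ
        have h7 := (mem_filter.1 h6).2
        rw [not_disjoint_iff] at h7
        obtain ⟨i, hi1, hi2⟩ := h7
        have h8 := (mem_filter.1 hi2).2
        rw [hcd', mem_insert, mem_singleton] at hi1
        rcases hi1 with rfl | rfl
        · exact mem_union_left _ (mem_filter.2 ⟨h5, h8⟩)
        · exact mem_union_right _ (mem_filter.2 ⟨h5, h8⟩)
      have h9 := card_miss (hpop c (he1 (by rw [hcd']; exact mem_insert_self _ _)))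
        (Subset.refl A)
      have h10 := card_miss (hpop d (he1 (by
        rw [hcd']; exact mem_insert_of_mem (mem_singleton_self _)))) (Subset.refl A)
      have h11 : ∑ e ∈ D.filter (fun e => ¬ Disjoint e0 e), x e ≤
          ((A.filter fun σ => σ c ≠ g c).card : ℝ) + ((A.filter fun σ => σ d ≠ g d).card : ℝ) := by
        rw [← h3] at h4
        simp only [hx]
        exact_mod_cast h4
      linarith
    obtain ⟨R1, hR1d⟩ : ∃ R1, R1 = ∑ e ∈ D.filter (fun e => Disjoint e0 e), x e := ⟨_, rfl⟩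
    obtain ⟨R2, hR2d⟩ : ∃ R2, R2 = ∑ e ∈ D.filter (fun e => ¬ Disjoint e0 e), x e := ⟨_, rfl⟩
    rw [← hR1d] at hR1
    rw [← hR2d] at hR2 hR3
    rw [← hR1d, ← hR2d]
    rcases le_or_gt ((2 * (t : ℝ) + 3) * a) ((t + 1) * t / 2 * F) with h5 | h5
    · -- convexity
      have h6 : a * (R1 + R2) ≤ a * ((t + 3) * (t + 2) / 2 * F) := by
        have h7 : a * R2 ≤ (2 * t + 3) * a ^ 2 := by
          calc a * R2 ≤ a * ((2 * t + 3) * a) := mul_le_mul_of_nonneg_left hR2 ha0.le
            _ = _ := by ring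
        have h8 : (a - F) * ((2 * t + 3) * a - (t + 1) * t / 2 * F) ≤ 0 :=
          mul_nonpos_of_nonneg_of_nonpos (by linarith) (by linarith)
        have h9 : a * ((t + 3) * (t + 2) / 2 * F) - ((t + 1) * t / 2 * F ^ 2 + (2 * t + 3) * a ^ 2) =
            -((a - F) * ((2 * t + 3) * a - (t + 1) * t / 2 * F)) := by ring
        have h10 : a * (R1 + R2) = a * R1 + a * R2 := by ring
        linarith
      have h7 := le_of_mul_le_mul_left h6 ha0
      exact h7.trans (hAν _ (by linarith))
    · have h6 : R1 ≤ (2 * t + 3) * F := by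
        have h7 : a * R1 ≤ a * ((2 * t + 3) * F) := by
          calc a * R1 ≤ (t + 1) * t / 2 * F ^ 2 := hR1
            _ = (t + 1) * t / 2 * F * F := by ring
            _ ≤ (2 * t + 3) * a * F := mul_le_mul_of_nonneg_right h5.le hF0.le
            _ = _ := by ring
        exact le_of_mul_le_mul_left h7 ha0
      -- `2 (1-p0) |A| + (2t+3) F ≤ ν |A|`
      have h7 : (ν - 2 * (1 - p0)) * (t * (t + 1)) ≥ 2 * t + 3 := by
        have : (ν - 2 * (1 - p0)) * (t * (t + 1)) =
            ν * (t * (t + 1)) - 2 * (1 - p0) * (t * (t + 1)) := by ring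
        linarith
      have h8 : 0 ≤ ν - 2 * (1 - p0) := by
        have h9 : (0 : ℝ) < t * (t + 1) := by positivity
        have h10 : 0 ≤ (ν - 2 * (1 - p0)) * (t * (t + 1)) := le_trans (by positivity) h7
        exact nonneg_of_mul_nonneg_left h10 h9
      have h9 : (2 * t + 3) * F ≤ (ν - 2 * (1 - p0)) * A.card := by
        calc (2 * (t : ℝ) + 3) * F ≤ (ν - 2 * (1 - p0)) * (t * (t + 1)) * F :=
              mul_le_mul_of_nonneg_right h7 hF0.le
          _ = (ν - 2 * (1 - p0)) * (t * (t + 1) * F) := by ring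
          _ ≤ _ := mul_le_mul_of_nonneg_left hFA h8
      have h10 : (ν - 2 * (1 - p0)) * (A.card : ℝ) = ν * A.card - 2 * (1 - p0) * A.card := by ring
      linarith

/-- **step y2** -/
theorem step_y2 (ht : 3 ≤ t) {A : Finset (Perm (Fin (2 * t + 1)))} (hA : TInt t A)
    (hX : Cross1 t) {p0 : ℝ} (hF : ((t + 1).factorial : ℝ) ≤ A.card)
    {g : Perm (Fin (2 * t + 1))} {T : Finset (Fin (2 * t + 1))}
    (hpop : ∀ i ∈ T, p0 * A.card ≤ ((thr A i (g i)).card : ℝ)) {ν : ℝ}
    (h1 : ((t : ℝ) + 3) * (t + 2) ≤ 2 * (t * (t + 1)) * ν)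
    (h2 : 2 * (1 - p0) * (t * (t + 1)) + (2 * t + 3) ≤ ν * (t * (t + 1)))
    (h3 : 2 * ((t : ℝ) + 3) * (t - 2) + 3 <
      (3 - ν - (t + 3) * (1 - p0)) * ((t + 1) * t * (t - 1))) : T.card ≤ t + 2 := by
  classical
  by_contra hcon
  obtain ⟨U, hUT, hUc⟩ := exists_subset_card_eq (show t + 3 ≤ T.card by omega)
  have hpopU : ∀ i ∈ U, p0 * A.card ≤ ((thr A i (g i)).card : ℝ) := fun i hi => hpop i (hUT hi)
  have hN2 := N2_le (by omega) hA hX hF hUc hpopU h1 h2
  have htR : (3 : ℝ) ≤ t := by exact_mod_cast ht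
  obtain ⟨f, hf⟩ : ∃ f : ℝ, f = ((t - 2).factorial : ℝ) := ⟨_, rfl⟩
  have hf0 : 0 < f := by rw [hf]; exact_mod_cast Nat.factorial_pos _
  have hf1 : ((t - 1).factorial : ℝ) = (t - 1) * f := by
    rw [hf, ← Nat.mul_factorial_pred (by omega : t - 1 ≠ 0), show t - 1 - 1 = t - 2 by omega]
    push_cast [Nat.cast_sub (show 1 ≤ t by omega)]
    ring
  have hf2 : ((t + 1).factorial : ℝ) = (t + 1) * t * (t - 1) * f := by
    rw [Nat.factorial_succ, ← Nat.mul_factorial_pred (by omega : t ≠ 0)]
    push_cast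
    rw [hf1]
    ring
  set mis : Perm (Fin (2 * t + 1)) → Finset (Fin (2 * t + 1)) :=
    fun σ => U.filter (fun i => σ i ≠ g i) with hmis
  -- total number of misses
  have hsum : ∑ σ ∈ A, ((mis σ).card : ℝ) ≤ (t + 3) * (1 - p0) * A.card := by
    have h4 : ∀ σ, ((mis σ).card : ℝ) = (t + 3) - ((U.filter (fun i => σ i = g i)).card : ℝ) := by
      intro σ
      have h5 : (U.filter (fun i => σ i = g i)).card + (mis σ).card = U.card :=
        card_filter_add_card_filter_not _
      have h6 : ((U.filter (fun i => σ i = g i)).card : ℝ) + ((mis σ).card : ℝ) = t + 3 := by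
        rw [hUc] at h5
        exact_mod_cast h5
      linarith
    rw [sum_congr rfl fun σ _ => h4 σ, sum_sub_distrib, sum_const, nsmul_eq_mul]
    have h5 : (∑ σ ∈ A, ((U.filter (fun i => σ i = g i)).card : ℝ)) =
        ∑ i ∈ U, ((thr A i (g i)).card : ℝ) := by
      have := sum_thr_hits A g U
      exact_mod_cast this.symm
    have h6 : ((t : ℝ) + 3) * (p0 * A.card) ≤ ∑ i ∈ U, ((thr A i (g i)).card : ℝ) := by
      calc ((t : ℝ) + 3) * (p0 * A.card) = ∑ i ∈ U, p0 * A.card := by
            rw [sum_const, hUc, nsmul_eq_mul]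
            push_cast
            ring
        _ ≤ _ := sum_le_sum hpopU
    rw [h5]
    have h7 : (t + 3) * (1 - p0) * (A.card : ℝ) = A.card * (t + 3) - (t + 3) * (p0 * A.card) := by
      ring
    linarith
  -- counts
  have hN0 : ((A.filter fun σ => (mis σ).card = 0).card : ℝ) ≤ f := by
    have h4 : (A.filter fun σ => (mis σ).card = 0).card ≤ (star g U).card := by
      apply card_le_card
      intro σ hσ
      have h5 := card_eq_zero.1 (mem_filter.1 hσ).2
      refine mem_star.2 fun i hi => ?_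
      by_contra h6
      have : i ∈ mis σ := mem_filter.2 ⟨hi, h6⟩
      rw [h5] at this
      exact notMem_empty i this
    rw [card_star, hUc, show 2 * t + 1 - (t + 3) = t - 2 by omega] at h4
    rw [hf]
    exact_mod_cast h4
  have hN1 : ((A.filter fun σ => (mis σ).card = 1).card : ℝ) ≤ (t + 3) * ((t - 1) * f - f) := by
    have h4 : (A.filter fun σ => (mis σ).card = 1).card ≤
        ∑ i0 ∈ U, (star g (U.erase i0) \ star g U).card := by
      have h5 : (A.filter fun σ => (mis σ).card = 1) ⊆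
          U.biUnion fun i0 => star g (U.erase i0) \ star g U := by
        intro σ hσ
        obtain ⟨i0, hi0⟩ := card_eq_one.1 (mem_filter.1 hσ).2
        have h6 : i0 ∈ mis σ := by rw [hi0]; exact mem_singleton_self _
        obtain ⟨h7, h8⟩ := mem_filter.1 h6
        refine mem_biUnion.2 ⟨i0, h7, mem_sdiff.2 ⟨mem_star.2 fun i hi => ?_, fun h9 =>
          h8 (mem_star.1 h9 i0 h7)⟩⟩
        obtain ⟨h10, h11⟩ := mem_erase.1 hi
        by_contra h12
        have h13 : i ∈ mis σ := mem_filter.2 ⟨h11, h12⟩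
        rw [hi0, mem_singleton] at h13
        exact h10 h13
      exact (card_le_card h5).trans card_biUnion_le
    have h6 : ∀ i0 ∈ U, (star g (U.erase i0) \ star g U).card = (t - 1).factorial - (t - 2).factorial := by
      intro i0 hi0
      rw [card_sdiff_of_subset, card_star, card_star, card_erase_of_mem hi0, hUc,
        show 2 * t + 1 - (t + 3 - 1) = t - 1 by omega, show 2 * t + 1 - (t + 3) = t - 2 by omega]
      intro σ hσ
      exact mem_star.2 fun i hi => mem_star.1 hσ i (mem_of_mem_erase hi)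
    rw [sum_congr rfl h6, sum_const, hUc, smul_eq_mul] at h4
    have h7 : (t - 2).factorial ≤ (t - 1).factorial := Nat.factorial_le (by omega)
    have h8 : ((A.filter fun σ => (mis σ).card = 1).card : ℝ) ≤
        (((t + 3) * ((t - 1).factorial - (t - 2).factorial) : ℕ) : ℝ) := by exact_mod_cast h4
    rw [Nat.cast_mul, Nat.cast_sub h7, hf1, ← hf] at h8
    push_cast at h8
    exact h8
  have hN2' : ((A.filter fun σ => (mis σ).card = 2).card : ℝ) ≤ ν * A.card := by
    have h4 := sum_Pe A g U (U.powersetCard 2)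
    have h5 : (A.filter fun σ => (mis σ).card = 2) =
        A.filter fun σ => U.filter (fun i => σ i ≠ g i) ∈ U.powersetCard 2 := by
      ext σ
      rw [mem_filter, mem_filter, mem_powersetCard]
      constructor
      · rintro ⟨h6, h7⟩
        exact ⟨h6, filter_subset _ _, h7⟩
      · rintro ⟨h6, _, h7⟩
        exact ⟨h6, h7⟩
    rw [h5, ← h4]
    push_cast
    exact hN2
  have hpt : ∀ σ, (3 : ℝ) - 3 * (if (mis σ).card = 0 then 1 else 0) -
      2 * (if (mis σ).card = 1 then 1 else 0) - (if (mis σ).card = 2 then 1 else 0) ≤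
      ((mis σ).card : ℝ) := by
    intro σ
    rcases Nat.lt_or_ge (mis σ).card 3 with h4 | h4
    · rcases (show (mis σ).card = 0 ∨ (mis σ).card = 1 ∨ (mis σ).card = 2 by omega) with h5 | h5 | h5 <;>
        rw [h5] <;> norm_num
    · have h5 : (3 : ℝ) ≤ ((mis σ).card : ℝ) := by exact_mod_cast h4
      rw [if_neg (by omega), if_neg (by omega), if_neg (by omega)]
      linarith
  have htot := sum_le_sum fun σ (_ : σ ∈ A) => hpt σ
  rw [sum_sub_distrib, sum_sub_distrib, sum_sub_distrib, ← mul_sum, ← mul_sum, sum_boole, sum_boole,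
    sum_boole, sum_const, nsmul_eq_mul] at htot
  -- conclusion
  have hfin : (3 - ν - (t + 3) * (1 - p0)) * (A.card : ℝ) ≤ (2 * (t + 3) * (t - 2) + 3) * f := by
    have e1 : (3 - ν - (t + 3) * (1 - p0)) * (A.card : ℝ) =
        3 * A.card - ν * A.card - (t + 3) * (1 - p0) * A.card := by ring
    have e2 : (2 * ((t : ℝ) + 3) * (t - 2) + 3) * f = 3 * f + 2 * ((t + 3) * ((t - 1) * f - f)) := by
      ring
    rw [e1, e2]
    linarith
  have hpos : 0 < 3 - ν - (t + 3) * (1 - p0) := by
    by_contra hneg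
    push Not at hneg
    have h4 : (0 : ℝ) < ((t : ℝ) + 1) * t * (t - 1) := by
      have : (0 : ℝ) < t - 1 := by linarith
      positivity
    have h5 := mul_nonpos_of_nonpos_of_nonneg hneg h4.le
    have h6 : 0 ≤ 2 * ((t : ℝ) + 3) * (t - 2) := by
      have : (0 : ℝ) ≤ t - 2 := by linarith
      positivity
    linarith
  have h4 := mul_le_mul_of_nonneg_left hF hpos.le
  rw [hf2] at h4
  have h5 := mul_lt_mul_of_pos_right h3 hf0
  have h6 : (3 - ν - (t + 3) * (1 - p0)) * ((t + 1) * t * (t - 1) * f) =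
      (3 - ν - (t + 3) * (1 - p0)) * ((t + 1) * t * (t - 1)) * f := by ring
  linarith

/-- the inequality for the number of popular cells -/
def YTop2 (t : ℕ) (p0 : ℝ) : Prop :=
  ∃ ν : ℝ, ((t : ℝ) + 3) * (t + 2) ≤ 2 * (t * (t + 1)) * ν ∧
    2 * (1 - p0) * (t * (t + 1)) + (2 * t + 3) ≤ ν * (t * (t + 1)) ∧
    2 * ((t : ℝ) + 3) * (t - 2) + 3 < (3 - ν - (t + 3) * (1 - p0)) * ((t + 1) * t * (t - 1))

theorem ytop2_8 : YTop2 7 (8115 / 10000) := ⟨45 / 56, by norm_num, by norm_num, by norm_num⟩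

theorem ytop2_9 : YTop2 8 (8215 / 10000) := ⟨55 / 72, by norm_num, by norm_num, by norm_num⟩

theorem ytop2_10 : YTop2 9 (8310 / 10000) := ⟨66 / 90, by norm_num, by norm_num, by norm_num⟩

theorem ytop2_11 : YTop2 10 (8402 / 10000) := ⟨78 / 110, by norm_num, by norm_num, by norm_num⟩

end Pool.EG
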