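import Pool.Agent.Work.MP_46fa68_h3.Two

/-!
# MP_46fa68_co: two-class certificates with a smaller cap of the marks

`A` is `t`-intersecting on `N + 1` points, `N = k + t`.  The weight of a fibre is `min (marks) K / K` with `K < k`.
The fibres with `k` marks or more: a member `κ` of `Q` which has exactly `t` agreements with such a fibre `π` contains
the unmarked part of `π`; two such fibres with different unmarked parts have `t + 2` agreements.  So they are few.
-/

set_option autoImplicit false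

open Finset Equiv

namespace Pool.TW

open Pool.JM Pool.OS

variable {n M t k K : ℕ}

/-- the inequality of a two-class certificate with cap `K` -/
def TCK (n k K t : ℕ) (W1 s11 s12 W2 s22 : ℝ) : Prop :=
  ∀ A : Finset (Perm (Fin (n + 1 + 1))), (∀ σ ∈ A, ∀ τ ∈ A, t ≤ ag σ τ) →
    0 ≤ (W1 * ((Qs A).card : ℝ) + W2 * (off K A : ℝ)) -
      (s11 * ((Qs A).card : ℝ) ^ 2 + 2 * s12 * ((Qs A).card : ℝ) * (off K A : ℝ) +
        s22 * (off K A : ℝ) ^ 2) / (k + 1).factorial

/-- **The two-class certificate with cap `K`.** -/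
theorem two_classK (hN : n + 1 = k + t) (hk : k + 1 ≤ n) (hK1 : 1 ≤ K) (hM : n + 1 < M)
    (a b c : Finset ℕ → ℝ) (p0 s11 q0 s12 r0 s22 : ℝ)
    (ha1 : Harm M (k + 1) (n + 1) a) (ha2 : Val (n + 1) M (k + 1) a p0 s11)
    (hb1 : Harm M k (n + 1) b) (hb2 : Val (n + 1) M k b q0 s12) (hq0 : 0 ≤ q0)
    (hc1 : Harm M (k + 1) (n + 1) c) (hc2 : Val (n + 1) M (k + 1) c r0 s22) (hr0 : 0 ≤ r0)
    (ha : ∀ B ∈ Lv M (n + 1), 0 ≤ a B) (hc : ∀ B ∈ Lv M (n + 1), 0 ≤ c B)
    (hab : ∀ B ∈ Lv M (n + 1), b B ^ 2 ≤ a B * c B) :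
    TCK n k K t p0 s11 (s12 * (k + 1) / K) ((r0 + 2 * q0) / K) (s22 / K ^ 2) := by
  intro A hA
  have hk0 : (0 : ℝ) < K := by exact_mod_cast (show 0 < K by omega)
  have hF := fac_pos k
  have hfac : (((k + 1).factorial : ℕ) : ℝ) = ((k : ℝ) + 1) * k.factorial := by
    rw [Nat.factorial_succ]
    push_cast
    ring
  set X : ℝ := ((Qs A).card : ℝ) with hX
  set Y : ℝ := (off K A : ℝ) with hY
  have hsw : ∑ π, wt K (Ws A) π = Y / K := by
    unfold wt
    rw [← Finset.sum_div, hY]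
    unfold off
    rw [Nat.cast_sum]
  have hq := quad_two hM ha hc hab (vec (Qs A)) (wt K (Ws A))
  have h1 : qf (n + 1) M a (vec (Qs A)) (vec (Qs A)) ≤
      p0 * X - s11 / (k + 1).factorial * (X * X) := by
    have := qf_weights (M := M) a (vec (Qs A)) (vec (Qs A)) (vec_nonneg _) (vec_nonneg _) p0
      (s11 / (k + 1).factorial) (fun σ τ hσ hτ => pair_le hM hk (Or.inr rfl) a p0 s11 ha1 ha2
        (fun h => by omega) (by
          have := ag_Qs A hA (mem_of_vec hσ) (mem_of_vec hτ)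
          unfold ag at this
          omega))
    rwa [sum_vec, sum_vec_mul] at this
  have h2 : qf (n + 1) M b (vec (Qs A)) (wt K (Ws A)) ≤
      q0 * (Y / K) - s12 / k.factorial * (X * (Y / K)) := by
    have h := qf_weights (M := M) b (vec (Qs A)) (wt K (Ws A)) (vec_nonneg _) (wt_nonneg _ _) q0
      (s12 / k.factorial) (fun σ τ hσ hτ => pair_le hM (by omega : k ≤ n) (Or.inr rfl) b q0 s12
        hb1 hb2 (fun h => by omega) (by
            have := (fib A hA).cross (mem_of_vec hσ) (pos_of_wt hτ)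
            unfold ag at this
            omega))
    rw [sum_vec, hsw] at h
    refine h.trans ?_
    have h4 : ∑ π, vec (Qs A) π * wt K (Ws A) π ≤ Y / K := by
      rw [← hsw]
      refine Finset.sum_le_sum fun π _ => ?_
      exact mul_le_of_le_one_left (wt_nonneg _ _ _) (vec_le_one _ _)
    have := mul_le_mul_of_nonneg_left h4 hq0
    linarith
  have h3 : qf (n + 1) M c (wt K (Ws A)) (wt K (Ws A)) ≤
      r0 * (Y / K) - s22 / (k + 1).factorial * ((Y / K) * (Y / K)) := by
    have h := qf_weights (M := M) c (wt K (Ws A)) (wt K (Ws A)) (wt_nonneg _ _) (wt_nonneg _ _) r0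
      (s22 / (k + 1).factorial) (fun σ τ hσ hτ => pair_le hM hk (Or.inr rfl) c r0 s22 hc1 hc2
        (fun h => by omega) (by
          have := ag_fibres A hA (pos_of_wt hσ) (pos_of_wt hτ)
          unfold ag at this
          omega))
    rw [hsw] at h
    refine h.trans ?_
    have h4 : ∑ π, wt K (Ws A) π * wt K (Ws A) π ≤ Y / K := by
      rw [← hsw]
      refine Finset.sum_le_sum fun π _ => ?_
      exact mul_le_of_le_one_right (wt_nonneg _ _ _) (wt_le _ _ _)
    have := mul_le_mul_of_nonneg_left h4 hr0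
    linarith
  have e : (p0 * X + (r0 + 2 * q0) / K * Y) - (s11 * X ^ 2 + 2 * (s12 * (k + 1) / K) * X * Y +
      s22 / K ^ 2 * Y ^ 2) / (k + 1).factorial =
      (p0 * X - s11 / (k + 1).factorial * (X * X)) +
      2 * (q0 * (Y / K) - s12 / k.factorial * (X * (Y / K))) +
      (r0 * (Y / K) - s22 / (k + 1).factorial * ((Y / K) * (Y / K))) := by
    rw [hfac]
    field_simp
    ring
  rw [e]
  linarith


/-- the total number of members off the cell, cap `K`, `k = K + 1` -/
theorem card_offK {N : ℕ} (hN : N = K + 1 + t) (A : Finset (Perm (Fin (N + 1)))) :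
    A.card ≤ (Qs A).card + (off K A + ((Bp K (Ws A)).card + t * (Bp (K + 1) (Ws A)).card)) := by
  rw [card_eq A]
  refine Nat.add_le_add_left ?_ _
  unfold off Bp
  have h : ∀ π : Perm (Fin N), (Ws A π).card ≤ min (Ws A π).card K +
      ((if K + 1 ≤ (Ws A π).card then 1 else 0) + (if K + 1 + 1 ≤ (Ws A π).card then t else 0)) := by
    intro π
    have h1 : (Ws A π).card ≤ N := (card_le_univ _).trans (by rw [Fintype.card_fin])
    split_ifs <;> omega
  refine (Finset.sum_le_sum fun π _ => h π).trans (le_of_eq ?_)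
  rw [Finset.sum_add_distrib, Finset.sum_add_distrib, ← Finset.sum_filter, ← Finset.sum_filter,
    Finset.sum_const, Finset.sum_const, smul_eq_mul, smul_eq_mul, mul_one, mul_comm t]

section full

variable {N : ℕ} {Q : Finset (Perm (Fin N))} {W : Perm (Fin N) → Finset (Fin N)}

/-- the unmarked part of a fibre -/
def key (W : Perm (Fin N) → Finset (Fin N)) (π : Perm (Fin N)) : Fin N → Option (Fin N) :=
  fun u => if u ∈ W π then none else some (π⁻¹ u)

theorem key_eq_of {π π' : Perm (Fin N)} (h1 : W π = W π') (h2 : ∀ u, u ∉ W π → π⁻¹ u = π'⁻¹ u) :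
    key W π = key W π' := by
  funext u
  unfold key
  rw [← h1]
  split_ifs with h
  · rfl
  · rw [h2 u h]

theorem key_W {π π' : Perm (Fin N)} (h : key W π = key W π') : W π = W π' := by
  ext u
  have h1 := congrFun h u
  unfold key at h1
  by_cases h2 : u ∈ W π <;> by_cases h3 : u ∈ W π' <;> simp_all

theorem key_inv {π π' : Perm (Fin N)} (h : key W π = key W π') {u : Fin N} (hu : u ∉ W π) :
    π⁻¹ u = π'⁻¹ u := by
  have h1 := congrFun h u
  unfold key at h1
  rw [if_neg hu, if_neg (by rw [← key_W h]; exact hu)] at h1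
  exact Option.some_injective _ h1

theorem drop_left (h : Fib t Q W) {π π' : Perm (Fin N)} {w w' : Fin N} (hw : w ∈ W π)
    (hw' : w' ∈ W π') (hne : w ≠ w') (hC : w ∈ cols π π' ∨ w' ∈ cols π π') :
    t ≤ (((cols π π').erase w).erase w').card := by
  have h1 := h.hW π π' w hw w' hw' hne
  rw [if_neg, add_zero] at h1
  · exact h1
  · intro h2
    rcases hC with h3 | h3
    · rw [mem_cols.1 h3] at h2
      exact hne ((π'⁻¹).injective h2)
    · rw [← mem_cols.1 h3] at h2
      exact hne ((π⁻¹).injective h2)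

/-- two fibres with `k` marks or more and different unmarked parts have `t + 2` agreements -/
theorem key_ne (h : Fib t Q W) (hN : N = k + t) (hk : 3 ≤ k) (ht : 1 ≤ t) {π π' : Perm (Fin N)}
    (hπ : k ≤ (W π).card) (hπ' : k ≤ (W π').card) (hne : key W π ≠ key W π') :
    t + 2 ≤ ag π π' := by
  have h0 : t ≤ ag π π' := h.three (by omega) (by omega)
  by_contra hcon
  rw [ag_eq_cols] at h0 hcon
  have hc1 : (W π)ᶜ.card ≤ t := by
    rw [card_compl, Fintype.card_fin]
    omega
  have hc2 : (W π')ᶜ.card ≤ t := by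
    rw [card_compl, Fintype.card_fin]
    omega
  obtain ⟨C', hC1, hC2, hC3, hC4⟩ : ∃ C' : Finset (Fin N), C' ⊆ cols π π' ∧ t ≤ C'.card ∧
      C' ⊆ (W π)ᶜ ∧ C' ⊆ (W π')ᶜ := by
    rcases Nat.lt_or_ge t (cols π π').card with h1 | h1
    · have h2 : (cols π π').card = t + 1 := by omega
      obtain ⟨w, hw1, hw2⟩ := meet (E := W π) (F := cols π π') (by omega)
      obtain ⟨w', hw1', hw2'⟩ := meet (E := W π') (F := cols π π') (by omega)
      have key1 : ∀ x ∈ W π, x ∈ cols π π' → ∀ y ∈ W π', y ∈ cols π π' → x = y := by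
        intro x hx hx' y hy hy'
        by_contra hxy
        have h3 := drop_left h hx hy hxy (Or.inl hx')
        rw [card_erase_of_mem (mem_erase.2 ⟨Ne.symm hxy, hy'⟩), card_erase_of_mem hx'] at h3
        omega
      have e1 := key1 w hw1 hw2 w' hw1' hw2'
      refine ⟨(cols π π').erase w, erase_subset _ _, ?_, ?_, ?_⟩
      · rw [card_erase_of_mem hw2]
        omega
      · intro x hx
        obtain ⟨hx1, hx2⟩ := mem_erase.1 hx
        rw [mem_compl]
        intro hx3
        apply hx1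
        rw [key1 x hx3 hx2 w' hw1' hw2', e1]
      · intro x hx
        obtain ⟨hx1, hx2⟩ := mem_erase.1 hx
        rw [mem_compl]
        intro hx3
        exact hx1 (key1 w hw1 hw2 x hx3 hx2).symm
    · refine ⟨cols π π', Subset.refl _, h0, ?_, ?_⟩
      · intro x hx
        rw [mem_compl]
        intro hx1
        obtain ⟨y, hy⟩ : ((W π').erase x).Nonempty := by
          rw [← card_pos]
          have := pred_card_le_card_erase (s := W π') (a := x)
          omega
        obtain ⟨hy1, hy2⟩ := mem_erase.1 hy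
        have h3 := drop_left h hx1 hy2 (Ne.symm hy1) (Or.inl hx)
        have h4 : (((cols π π').erase x).erase y).card ≤ ((cols π π').erase x).card :=
          card_le_card (erase_subset _ _)
        rw [card_erase_of_mem hx] at h4
        have h5 : 0 < (cols π π').card := card_pos.2 ⟨x, hx⟩
        omega
      · intro x hx
        rw [mem_compl]
        intro hx1
        obtain ⟨y, hy⟩ : ((W π).erase x).Nonempty := by
          rw [← card_pos]
          have := pred_card_le_card_erase (s := W π) (a := x)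
          omega
        obtain ⟨hy1, hy2⟩ := mem_erase.1 hy
        have h3 := drop_left h hy2 hx1 hy1 (Or.inr hx)
        rw [erase_right_comm] at h3
        have h4 : (((cols π π').erase x).erase y).card ≤ ((cols π π').erase x).card :=
          card_le_card (erase_subset _ _)
        rw [card_erase_of_mem hx] at h4
        have h5 : 0 < (cols π π').card := card_pos.2 ⟨x, hx⟩
        omega
  have e1 : C' = (W π)ᶜ := eq_of_subset_of_card_le hC3 (hc1.trans hC2)
  have e2 : C' = (W π')ᶜ := eq_of_subset_of_card_le hC4 (hc2.trans hC2)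
  apply hne
  refine key_eq_of ?_ ?_
  · rw [← compl_compl (W π), ← e1, e2, compl_compl]
  · intro u hu
    have hu' : u ∈ C' := by
      rw [e1, mem_compl]
      exact hu
    exact mem_cols.1 (hC1 hu')

/-- a member of `Q` with exactly `t` agreements contains the unmarked part -/
theorem tight (h : Fib t Q W) (hN : N = k + t) (hk : 1 ≤ k) {κ π : Perm (Fin N)} (hκ : κ ∈ Q)
    (hπ : k ≤ (W π).card) (hag : ¬ t + 1 ≤ ag κ π) :
    (W π).card = k ∧ ∀ u, u ∉ W π → κ⁻¹ u = π⁻¹ u := by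
  have h0 : t ≤ ag κ π := h.cross hκ (by omega)
  rw [ag_eq_cols] at h0 hag
  have h1 : cols κ π ⊆ (W π)ᶜ := by
    intro x hx
    rw [mem_compl]
    intro hx1
    have h2 := h.hQ κ hκ π x hx1
    rw [card_erase_of_mem hx] at h2
    have h5 : 0 < (cols κ π).card := card_pos.2 ⟨x, hx⟩
    omega
  have h3 : (W π)ᶜ.card = N - (W π).card := by
    rw [card_compl, Fintype.card_fin]
  have h4 := card_le_card h1
  have h6 : (W π).card ≤ N := (card_le_univ _).trans (by rw [Fintype.card_fin])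
  have e : cols κ π = (W π)ᶜ := eq_of_subset_of_card_le h1 (by omega)
  refine ⟨by omega, fun u hu => ?_⟩
  exact mem_cols.1 (by rw [e, mem_compl]; exact hu)

/-- permutations with prescribed preimages outside a `k`-set -/
theorem star_card (S : Finset (Fin N)) (π : Perm (Fin N)) :
    (univ.filter fun κ : Perm (Fin N) => ∀ u, u ∉ S → κ⁻¹ u = π⁻¹ u).card ≤ S.card.factorial := by
  classical
  have h1 : (univ.filter fun g : Perm (Fin N) => ∀ u, ¬ u ∈ S → g u = u).card =
      S.card.factorial := by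
    rw [← Fintype.card_subtype]
    rw [← Fintype.card_congr (Equiv.Perm.subtypeEquivSubtypePerm (fun u => u ∈ S))]
    rw [Fintype.card_perm, Fintype.card_coe]
  rw [← h1]
  refine Finset.card_le_card_of_injOn (fun κ => π * κ⁻¹) ?_ ?_
  · intro κ hκ
    have hκ' := (mem_filter.1 hκ).2
    refine mem_filter.2 ⟨mem_univ _, fun u hu => ?_⟩
    rw [Perm.mul_apply, hκ' u hu, ap_inv]
  · intro κ _ κ' _ h
    have h2 : π * κ⁻¹ = π * κ'⁻¹ := h
    exact inv_injective (mul_left_cancel h2)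

/-- the fibres with the unmarked part of `π₀` -/
theorem card_class (h : Fib t Q W) (hN : N = k + t) (hk : 1 ≤ k) {X : ℝ} (hC : CB N (t + 1) X)
    (hQ : (k.factorial : ℝ) < Q.card) (f : Fin N → Option (Fin N)) :
    ((univ.filter fun π => k ≤ (W π).card ∧ key W π = f).card : ℝ) ≤ X / (Q.card - k.factorial) := by
  classical
  have hpos : (0 : ℝ) < Q.card - k.factorial := by linarith
  rw [le_div_iff₀ hpos]
  set F := univ.filter fun π => k ≤ (W π).card ∧ key W π = f with hF
  set Q' := Q.filter fun κ => ∀ π ∈ F, t + 1 ≤ ag κ π with hQ'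
  have h1 := hC Q' F fun κ hκ π hπ => (mem_filter.1 hκ).2 π hπ
  have h2 : (Q \ Q').card ≤ k.factorial := by
    rcases (Q \ Q').eq_empty_or_nonempty with he | ⟨κ₀, hκ₀⟩
    · rw [he, card_empty]
      exact Nat.zero_le _
    · obtain ⟨hκ1, hκ2⟩ := mem_sdiff.1 hκ₀
      have h3 : ¬ ∀ π ∈ F, t + 1 ≤ ag κ₀ π := fun h4 => hκ2 (mem_filter.2 ⟨hκ1, h4⟩)
      push Not at h3
      obtain ⟨π₀, hπ1, hπ2⟩ := h3
      have hπ3 := (mem_filter.1 hπ1).2
      obtain ⟨h5, -⟩ := tight h hN hk hκ1 hπ3.1 (by omega)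
      rw [← h5]
      refine (card_le_card ?_).trans (star_card (W π₀) π₀)
      intro κ hκ
      obtain ⟨hκ3, hκ4⟩ := mem_sdiff.1 hκ
      have h6 : ¬ ∀ π ∈ F, t + 1 ≤ ag κ π := fun h4 => hκ4 (mem_filter.2 ⟨hκ3, h4⟩)
      push Not at h6
      obtain ⟨π₁, hπ4, hπ5⟩ := h6
      have hπ6 := (mem_filter.1 hπ4).2
      obtain ⟨-, h8⟩ := tight h hN hk hκ3 hπ6.1 (by omega)
      have h9 : key W π₁ = key W π₀ := hπ6.2.trans hπ3.2.symm
      refine mem_filter.2 ⟨mem_univ _, fun u hu => ?_⟩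
      have hu' : u ∉ W π₁ := by
        rw [key_W h9]
        exact hu
      rw [h8 u hu', key_inv h9 hu']
  have h3 : Q.card ≤ Q'.card + (Q \ Q').card := by
    have := card_sdiff_add_card_inter Q Q'
    have h4 : (Q ∩ Q').card ≤ Q'.card := card_le_card inter_subset_right
    omega
  have h4 : (Q.card : ℝ) - k.factorial ≤ Q'.card := by
    have h5 : (Q.card : ℝ) ≤ Q'.card + (Q \ Q').card := by exact_mod_cast h3
    have h6 : ((Q \ Q').card : ℝ) ≤ k.factorial := by exact_mod_cast h2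
    linarith
  calc (F.card : ℝ) * (Q.card - k.factorial) ≤ F.card * Q'.card :=
        mul_le_mul_of_nonneg_left h4 (Nat.cast_nonneg _)
    _ = Q'.card * F.card := by ring
    _ ≤ X := h1

end full


/-- **the fibres with `k` marks or more are few**, `k = L + 2` -/
theorem full_bound {L : ℕ} {a : Finset ℕ → ℝ} {w V : ℝ} {Q : Finset (Perm (Fin (n + 1)))}
    {W : Perm (Fin (n + 1)) → Finset (Fin (n + 1))} (hL : 1 ≤ L) (ht : 1 ≤ t)
    (hN : n + 1 = L + 2 + t) (hK : Kern (n + 1) M L a w V) (h : Fib t Q W) {X : ℝ}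
    (hX : 0 ≤ X) (hV : 0 ≤ V) (hC : CB (n + 1) (t + 1) X) (hQ : ((L + 2).factorial : ℝ) < Q.card) :
    ((Bp (L + 1) W).card : ℝ) ≤ V * L.factorial + X / (Q.card - (L + 2).factorial) := by
  classical
  have hL0 := fac_pos L
  set F := Bp (L + 1) W with hF
  set c : ℝ := X / (Q.card - (L + 2).factorial) with hc
  have hc0 : 0 ≤ c := div_nonneg hX (by linarith)
  have hmem : ∀ π ∈ F, L + 2 ≤ (W π).card := fun π hπ => (mem_filter.1 hπ).2
  have hcls : ∀ f, ((F.filter fun π => key W π = f).card : ℝ) ≤ c := by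
    intro f
    have h1 := card_class h hN (by omega) hC hQ f
    refine le_trans (Nat.cast_le.2 (card_le_card ?_)) h1
    intro π hπ
    obtain ⟨h2, h3⟩ := mem_filter.1 hπ
    exact mem_filter.2 ⟨mem_univ _, hmem π h2, h3⟩
  have h0 : 0 ≤ qf (n + 1) M a (vec F) (vec F) := qf_nonneg hK.hM hK.nonneg _
  unfold qf at h0
  rw [vec_quad] at h0
  have hsplit : ∀ π ∈ F, ∑ π' ∈ F, G (n + 1) M a (n + 1) π π' ≤
      (∑ π' ∈ F.filter (fun π' => key W π' = key W π), G (n + 1) M a (n + 1) π π') -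
        ((F.card : ℝ) - c) / L.factorial := by
    intro π hπ
    rw [← Finset.sum_filter_add_sum_filter_not F (fun π' => key W π' = key W π)]
    have h2 : ∑ π' ∈ F.filter (fun π' => ¬ key W π' = key W π), G (n + 1) M a (n + 1) π π' ≤
        ∑ π' ∈ F.filter (fun π' => ¬ key W π' = key W π), (-(1 / L.factorial) : ℝ) := by
      refine Finset.sum_le_sum fun π' hπ' => ?_
      obtain ⟨h3, h4⟩ := mem_filter.1 hπ'
      have h5 := key_ne h hN (by omega) ht (hmem π hπ) (hmem π' h3) (fun h6 => h4 h6.symm)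
      have h7 := pair hK (by omega) (σ := π) (τ := π') (by omega)
      rw [if_neg] at h7
      · linarith
      · rintro rfl
        exact h4 rfl
    rw [Finset.sum_const, nsmul_eq_mul] at h2
    have h8 := hcls (key W π)
    have h9 : (F.filter fun π' => key W π' = key W π).card +
        (F.filter fun π' => ¬ key W π' = key W π).card = F.card :=
      Finset.card_filter_add_card_filter_not _
    have h10 : ((F.filter fun π' => key W π' = key W π).card : ℝ) +
        ((F.filter fun π' => ¬ key W π' = key W π).card : ℝ) = F.card := by exact_mod_cast h9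
    have h11 : ((F.card : ℝ) - c) / L.factorial ≤
        ((F.filter fun π' => ¬ key W π' = key W π).card : ℝ) * (1 / L.factorial) := by
      rw [mul_one_div]
      exact div_le_div_of_nonneg_right (by linarith) hL0.le
    linarith
  have hdiag : ∑ π ∈ F, ∑ π' ∈ F.filter (fun π' => key W π' = key W π),
      G (n + 1) M a (n + 1) π π' ≤ V * F.card := by
    have e1 : ∑ π ∈ F, ∑ π' ∈ F.filter (fun π' => key W π' = key W π),
        G (n + 1) M a (n + 1) π π' =
        ∑ f ∈ F.image (key W), ∑ π ∈ F.filter (fun π => key W π = f),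
          ∑ π' ∈ F.filter (fun π' => key W π' = f), G (n + 1) M a (n + 1) π π' := by
      rw [← Finset.sum_fiberwise_of_maps_to (g := key W) (t := F.image (key W))
        (fun π hπ => mem_image_of_mem _ hπ)]
      refine Finset.sum_congr rfl fun f _ => Finset.sum_congr rfl fun π hπ => ?_
      rw [(mem_filter.1 hπ).2]
    rw [e1]
    have e2 : ∀ f ∈ F.image (key W), ∑ π ∈ F.filter (fun π => key W π = f),
          ∑ π' ∈ F.filter (fun π' => key W π' = f), G (n + 1) M a (n + 1) π π' ≤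
        V * ((F.filter fun π => key W π = f).card : ℝ) := by
      intro f _
      have h3 := qf_le hK.hM hK.le (vec (F.filter fun π => key W π = f))
      unfold qf at h3
      rw [vec_quad, JM.vec_dot] at h3
      exact h3
    refine (Finset.sum_le_sum e2).trans (le_of_eq ?_)
    rw [← Finset.mul_sum]
    congr 1
    have e3 := Finset.card_eq_sum_card_fiberwise (f := key W) (s := F) (t := F.image (key W))
      (fun π hπ => mem_image_of_mem _ hπ)
    rw [e3]
    push_cast
    rfl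
  have h12 : 0 ≤ V * F.card - F.card * (((F.card : ℝ) - c) / L.factorial) := by
    have h13 := Finset.sum_le_sum hsplit
    rw [Finset.sum_sub_distrib, Finset.sum_const, nsmul_eq_mul] at h13
    linarith
  rcases Nat.eq_zero_or_pos F.card with hz | hz
  · rw [hz, Nat.cast_zero]
    positivity
  · have hz' : (0 : ℝ) < F.card := by exact_mod_cast hz
    have h14 : 0 ≤ (F.card : ℝ) * (V - ((F.card : ℝ) - c) / L.factorial) := by
      calc 0 ≤ V * F.card - F.card * (((F.card : ℝ) - c) / L.factorial) := h12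
        _ = _ := by ring
    have h15 : 0 ≤ V - ((F.card : ℝ) - c) / L.factorial := nonneg_of_mul_nonneg_right h14 hz'
    have h16 : ((F.card : ℝ) - c) / L.factorial ≤ V := by linarith
    rw [div_le_iff₀ hL0] at h16
    linarith

/-- **Exclusion of an interval of densities.**  `e` = loss from the fibres with more than `K` marks. -/
theorem TCK.excl (hN : n + 1 = k + t) {W1 s11 s12 W2 s22 θ e l r r' : ℝ}
    (h : TCK n k K t W1 s11 s12 W2 s22)
    (hloss : ∀ A : Finset (Perm (Fin (n + 1 + 1))), (∀ σ ∈ A, ∀ τ ∈ A, t ≤ ag σ τ) →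
      θ * ((k + 1).factorial : ℝ) ≤ A.card → l * (A.card : ℝ) ≤ (Qs A).card →
      (A.card : ℝ) ≤ (Qs A).card + off K A + e * A.card) (hθ : 0 < θ)
    (he1 : e < 1) (hl0 : 0 < l) (hr0 : 0 ≤ r') (hrr : r ≤ r' * (1 - e))
    (hW1 : 0 ≤ W1) (hW2 : 0 ≤ W2) (hconc : s11 + s22 ≤ 2 * s12)
    (hl : W1 * l + W2 * (1 - l) <
      θ * (1 - e) * (s11 * l ^ 2 + 2 * s12 * l * (1 - l) + s22 * (1 - l) ^ 2))
    (hr : W1 * r' + W2 * (1 - r') <
      θ * (1 - e) * (s11 * r' ^ 2 + 2 * s12 * r' * (1 - r') + s22 * (1 - r') ^ 2)) :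
    Excl (n + 1 + 1) t θ l r := by
  intro A hA hc x y ⟨h1, h2⟩
  have hFp : (0 : ℝ) < ((k + 1).factorial : ℝ) := fac_pos (k + 1)
  obtain ⟨A', hA1, hA2, hA3⟩ := exists_move A x y
  have hA4 : ∀ σ ∈ A', ∀ τ ∈ A', t ≤ ag σ τ := hA3 t hA
  rw [show n + 1 + 1 - t = k + 1 by omega] at hc
  have e0 : ((Pool.EG.thr A x y).card : ℝ) = ((Qs A').card : ℝ) := by
    rw [hA2]
    rfl
  rw [e0] at h1 h2
  have hT := h A' hA4
  have u1 := hloss A' hA4 (by rw [hA1]; exact hc) (by rw [hA1]; exact h1)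
  have u2' : ((Qs A').card : ℝ) + (off K A' : ℝ) ≤ (A.card : ℝ) := by
    have u2 := off_le (k := K) A'
    rw [hA1] at u2
    exact_mod_cast u2
  rw [hA1] at u1
  have hY0 : (0 : ℝ) ≤ (off K A' : ℝ) := Nat.cast_nonneg _
  obtain ⟨X, hX⟩ : ∃ X : ℝ, X = ((Qs A').card : ℝ) := ⟨_, rfl⟩
  obtain ⟨Y, hY⟩ : ∃ Y : ℝ, Y = (off K A' : ℝ) := ⟨_, rfl⟩
  obtain ⟨S, hS⟩ : ∃ S : ℝ, S = (A.card : ℝ) := ⟨_, rfl⟩
  obtain ⟨F, hF⟩ : ∃ F : ℝ, F = ((k + 1).factorial : ℝ) := ⟨_, rfl⟩
  rw [← hX, ← hY, ← hF] at hT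
  rw [← hX, ← hY, ← hS] at u1
  rw [← hX, ← hY, ← hS] at u2'
  rw [← hX, ← hS] at h1 h2
  rw [← hF, ← hS] at hc
  rw [← hY] at hY0
  rw [← hF] at hFp
  clear hX hY hS hF e0
  have hS0 : 0 < S := lt_of_lt_of_le (mul_pos hθ hFp) hc
  have hX0 : 0 < X := lt_of_lt_of_le (mul_pos hl0 hS0) h1
  have hT1 : (1 - e) * S ≤ X + Y := by linarith
  have he2 : 0 < 1 - e := by linarith
  have hT0 : 0 < X + Y := lt_of_lt_of_le (mul_pos he2 hS0) hT1
  obtain ⟨T, hTd⟩ : ∃ T : ℝ, T = X + Y := ⟨_, rfl⟩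
  obtain ⟨p, hp⟩ : ∃ p : ℝ, p = X / T := ⟨_, rfl⟩
  rw [← hTd] at hT1 hT0
  have hXp : X = p * T := by rw [hp, div_mul_cancel₀ _ hT0.ne']
  have hYp : Y = (1 - p) * T := by
    have : Y = T - X := by linarith
    rw [this, sub_mul, one_mul, ← hXp]
  have hlp : l ≤ p := by
    rw [hp, le_div_iff₀ hT0]
    have : l * T ≤ l * S := mul_le_mul_of_nonneg_left (by linarith) hl0.le
    linarith
  have hpr : p ≤ r' := by
    rw [hp, div_le_iff₀ hT0]
    calc X ≤ r * S := h2
      _ ≤ r' * (1 - e) * S := mul_le_mul_of_nonneg_right hrr hS0.le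
      _ = r' * ((1 - e) * S) := by ring
      _ ≤ r' * T := mul_le_mul_of_nonneg_left hT1 hr0
  have hmain := interval (mul_nonneg hθ.le he2.le) hconc hlp hpr hl hr
  obtain ⟨q, hq⟩ : ∃ q : ℝ, q = s11 * p ^ 2 + 2 * s12 * p * (1 - p) + s22 * (1 - p) ^ 2 := ⟨_, rfl⟩
  obtain ⟨L, hL⟩ : ∃ L : ℝ, L = W1 * p + W2 * (1 - p) := ⟨_, rfl⟩
  rw [← hq, ← hL] at hmain
  have hp0 : 0 ≤ p := hl0.le.trans hlp
  have hp1 : 0 ≤ 1 - p := by
    have : 0 ≤ (1 - p) * T := by rw [← hYp]; exact hY0
    by_contra hneg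
    have := mul_neg_of_neg_of_pos (not_le.1 hneg) hT0
    linarith
  have hL0 : 0 ≤ L := by
    rw [hL]
    exact add_nonneg (mul_nonneg hW1 hp0) (mul_nonneg hW2 hp1)
  have hq0 : 0 < q := by
    by_contra hneg
    have := mul_nonpos_of_nonneg_of_nonpos (mul_nonneg hθ.le he2.le) (not_lt.1 hneg)
    linarith
  have e2 : W1 * X + W2 * Y = T * L := by rw [hXp, hYp, hL]; ring
  have e3 : s11 * X ^ 2 + 2 * s12 * X * Y + s22 * Y ^ 2 = T * (T * q) := by
    rw [hXp, hYp, hq]; ring
  rw [e2, e3] at hT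
  have k7 : T * (T * q) / F ≤ T * L := by linarith
  rw [div_le_iff₀ hFp] at k7
  have k8 : T * q ≤ L * F := by
    have : T * (T * q) ≤ T * (L * F) := by
      calc T * (T * q) ≤ T * L * F := k7
        _ = _ := by ring
    exact le_of_mul_le_mul_left this hT0
  have k9 : θ * (1 - e) * F * q ≤ T * q := by
    refine mul_le_mul_of_nonneg_right ?_ hq0.le
    calc θ * (1 - e) * F = (1 - e) * (θ * F) := by ring
      _ ≤ (1 - e) * S := mul_le_mul_of_nonneg_left hc he2.le
      _ ≤ T := hT1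
  have k10 : L * F < θ * (1 - e) * q * F := mul_lt_mul_of_pos_right hmain hFp
  have k11 : θ * (1 - e) * q * F = θ * (1 - e) * F * q := by ring
  linarith


/-- the loss for the cap `K = k - 1`, `k = L + 2` -/
theorem loss_full {L : ℕ} {a : Finset ℕ → ℝ} {w V : ℝ} (hL : 1 ≤ L) (ht : 1 ≤ t)
    (hN : n + 1 = L + 2 + t) (hK : Kern (n + 1) M L a w V) (hV : 0 ≤ V) {C e l θ : ℝ} (hC0 : 0 ≤ C)
    (hC : CB (n + 1) (t + 1) (C * ((L + 3).factorial : ℝ) ^ 2)) (hθ : 0 < θ) (hl0 : 0 < l)
    (hlθ : 1 < l * θ * (L + 3))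
    (he : V / ((L + 1) * (L + 2) * (L + 3)) + C / (l * θ - 1 / (L + 3)) + t * C / (l * θ) ≤ e * θ)
    (A : Finset (Perm (Fin (n + 1 + 1)))) (hA : ∀ σ ∈ A, ∀ τ ∈ A, t ≤ ag σ τ)
    (hc : θ * ((L + 3).factorial : ℝ) ≤ A.card) (hlA : l * (A.card : ℝ) ≤ (Qs A).card) :
    (A.card : ℝ) ≤ (Qs A).card + off (L + 1) A + e * A.card := by
  have hFL := fac_pos L
  have hF : (0 : ℝ) < ((L + 3).factorial : ℝ) := fac_pos _
  have hF2 : (0 : ℝ) < ((L + 2).factorial : ℝ) := fac_pos _
  have hL1 : (0 : ℝ) ≤ (L : ℝ) := Nat.cast_nonneg _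
  have e1 : ((L + 3).factorial : ℝ) = (L + 3) * (L + 2).factorial := by
    rw [Nat.factorial_succ]
    push_cast
    ring
  have e2 : ((L + 3).factorial : ℝ) = (L + 3) * (L + 2) * (L + 1) * L.factorial := by
    rw [Nat.factorial_succ, Nat.factorial_succ, Nat.factorial_succ]
    push_cast
    ring
  obtain ⟨F, hFd⟩ : ∃ F : ℝ, F = ((L + 3).factorial : ℝ) := ⟨_, rfl⟩
  have hQl : l * θ * F ≤ (Qs A).card := by
    have := mul_le_mul_of_nonneg_left hc hl0.le
    rw [← hFd] at this
    calc l * θ * F = l * (θ * F) := by ring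
      _ ≤ l * A.card := this
      _ ≤ _ := hlA
  rw [← hFd] at hF hc hC e1 e2
  have hlθ' : 0 < l * θ - 1 / (L + 3) := by
    have h3 : (0 : ℝ) < (L : ℝ) + 3 := by linarith
    rw [sub_pos, div_lt_iff₀ h3]
    exact hlθ
  have hF2' : ((L + 2).factorial : ℝ) = 1 / (L + 3) * F := by
    rw [e1]
    have h3 : (L : ℝ) + 3 ≠ 0 := by positivity
    field_simp
  have hFL' : (L.factorial : ℝ) = 1 / ((L + 1) * (L + 2) * (L + 3)) * F := by
    rw [e2]
    have h3 : (L : ℝ) + 3 ≠ 0 := by positivity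
    have h4 : (L : ℝ) + 2 ≠ 0 := by positivity
    have h5 : (L : ℝ) + 1 ≠ 0 := by positivity
    field_simp
  have hgap : (l * θ - 1 / (L + 3)) * F ≤ (Qs A).card - (L + 2).factorial := by
    rw [hF2']
    have e : (l * θ - 1 / (L + 3)) * F = l * θ * F - 1 / (L + 3) * F := by ring
    rw [e]
    linarith
  have hpos : 0 < (l * θ - 1 / (L + 3)) * F := mul_pos hlθ' hF
  have hQ2 : ((L + 2).factorial : ℝ) < (Qs A).card := by linarith
  have h1 := full_bound hL ht hN hK (fib A hA) (by positivity) hV hC hQ2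
  have h2 : C * F ^ 2 / ((Qs A).card - (L + 2).factorial) ≤ C / (l * θ - 1 / (L + 3)) * F := by
    calc C * F ^ 2 / ((Qs A).card - (L + 2).factorial) ≤ C * F ^ 2 / ((l * θ - 1 / (L + 3)) * F) :=
          div_le_div_of_nonneg_left (by positivity) hpos hgap
      _ = _ := by
          field_simp
  have h3 := hC (Qs A) (Bp (L + 2) (Ws A)) fun σ hσ τ hτ =>
    (fib A hA).cross_big hN hσ (mem_filter.1 hτ).2
  have hB0 : (0 : ℝ) ≤ ((Bp (L + 2) (Ws A)).card : ℝ) := Nat.cast_nonneg _
  have hlF : 0 < l * θ * F := by positivity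
  have h4 : ((Bp (L + 2) (Ws A)).card : ℝ) ≤ C / (l * θ) * F := by
    have h5 : l * θ * F * ((Bp (L + 2) (Ws A)).card : ℝ) ≤ C * F ^ 2 :=
      (mul_le_mul_of_nonneg_right hQl hB0).trans h3
    have e3 : C / (l * θ) * F = C * F ^ 2 / (l * θ * F) := by
      field_simp
    rw [e3, le_div_iff₀ hlF]
    linarith
  have h6 := card_offK (K := L + 1) (t := t) (by omega) A
  have h6' : (A.card : ℝ) ≤ (Qs A).card + ((off (L + 1) A : ℝ) +
      (((Bp (L + 1) (Ws A)).card : ℝ) + t * ((Bp (L + 2) (Ws A)).card : ℝ))) := by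
    exact_mod_cast h6
  have ht0 : (0 : ℝ) ≤ (t : ℝ) := Nat.cast_nonneg _
  have h7 : (t : ℝ) * ((Bp (L + 2) (Ws A)).card : ℝ) ≤ t * (C / (l * θ) * F) :=
    mul_le_mul_of_nonneg_left h4 ht0
  have he0 : 0 ≤ e * θ := le_trans (by positivity) he
  have he1 : 0 ≤ e := nonneg_of_mul_nonneg_left he0 hθ
  have h8 : (V / ((L + 1) * (L + 2) * (L + 3)) + C / (l * θ - 1 / (L + 3)) + t * C / (l * θ)) * F ≤
      e * A.card := by
    calc _ ≤ e * θ * F := mul_le_mul_of_nonneg_right he hF.le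
      _ = e * (θ * F) := by ring
      _ ≤ e * A.card := mul_le_mul_of_nonneg_left hc he1
  have h9 : V * (L.factorial : ℝ) = V / ((L + 1) * (L + 2) * (L + 3)) * F := by
    rw [hFL']
    ring
  have h10 : (V / ((L + 1) * (L + 2) * (L + 3)) + C / (l * θ - 1 / (L + 3)) + t * C / (l * θ)) * F =
      V / ((L + 1) * (L + 2) * (L + 3)) * F + C / (l * θ - 1 / (L + 3)) * F +
        t * (C / (l * θ) * F) := by
    ring
  rw [h10] at h8
  linarith

end Pool.TW
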